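import Mathlib
import Pool.Agent.H933R3.EvB
import Pool.Agent.H933R3.Chain
import Pool.Agent.H933R3.LCcheck

set_option autoImplicit false

/-!
# A non-evasive 4-ball that is not locally constructible

The 4-ball is the cone over a 3-ball with 12 vertices and 36 facets that has a knotted
spanning edge.
-/

namespace Pool.Agent.Results.MP_9638d9_co.ConeNotLC

open Finset Pool.Agent.H933R3 Pool.Agent.Helper175.NS

/-! ### Cones are non-evasive -/

theorem nonEvasive_of_cone {V : Type} [DecidableEq V] (a : V) (k : ℕ) :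
    ∀ K : Finset (Finset V), K.card = k → IsCx K → (∀ σ ∈ K, insert a σ ∈ K) → NonEvasive K := by
  induction k using Nat.strong_induction_on with
  | _ k ih =>
    intro K hk hK hcone
    have ha : {a} ∈ K := by
      have := hcone ∅ hK.1
      simpa using this
    by_cases hex : ∃ v, {v} ∈ K ∧ v ≠ a
    · obtain ⟨v, hv, hva⟩ := hex
      have hlt : ∀ L : Finset (Finset V), L ⊆ K → {v} ∉ L → L.card < k := by
        intro L hL hvL
        rw [← hk]
        exact card_lt_card ⟨hL, fun h => hvL (h hv)⟩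
      refine NonEvasive.step K v hv (ih _ (hlt _ (filter_subset _ _) ?_) _ rfl (hK.del v) ?_)
        (ih _ (hlt _ (filter_subset _ _) ?_) _ rfl (hK.link hv) ?_)
      · intro h
        exact (mem_del.1 h).2 (mem_singleton_self v)
      · intro σ hσ
        rw [mem_del] at hσ ⊢
        refine ⟨hcone σ hσ.1, ?_⟩
        rw [mem_insert, not_or]
        exact ⟨hva, hσ.2⟩
      · intro h
        exact ((mem_link hK).1 h).1 (mem_singleton_self v)
      · intro σ hσ
        rw [mem_link hK] at hσ ⊢
        refine ⟨?_, ?_⟩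
        · rw [mem_insert, not_or]
          exact ⟨hva, hσ.1⟩
        · rw [insert_comm]
          exact hcone _ hσ.2
    · push Not at hex
      have : K = {∅, {a}} := by
        ext σ
        rw [mem_insert, mem_singleton]
        constructor
        · intro hσ
          have h1 : ∀ x ∈ σ, x = a := fun x hx => hex x (hK.2 σ hσ _ (singleton_subset_iff.2 hx))
          rcases σ.eq_empty_or_nonempty with h | ⟨x, hx⟩
          · exact Or.inl h
          · right
            apply Subset.antisymm
            · intro y hy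
              rw [h1 y hy]
              exact mem_singleton_self a
            · rw [singleton_subset_iff, ← h1 x hx]
              exact hx
        · rintro (rfl | rfl)
          · exact hK.1
          · exact ha
      rw [this]
      exact NonEvasive.point a

/-! ### The example -/

/-- masks of the facets of the cone: sets of vertices `{i | bit i of m is 1}` -/
def Cm : List ℕ := [
  1039, 1047, 1099, 1302, 1353, 1555, 1603, 3085, 3116, 3224, 3233, 3240, 3266, 3280, 3337, 3346,
  3352, 3457, 3458, 3602, 3650, 5141, 5169, 5194, 5232, 5272, 5314, 5328, 5396, 5400, 5412, 5448,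
  5472, 7173, 7201, 7204]

def Cmoves : List (ℕ × ℕ) := [
  (6144, 37), (192, 6144), (144, 6152), (288, 68), (24, 6400), (2052, 41), (129, 288),
  (272, 2052), (2049, 296), (512, 2049), (18, 2053), (20, 6145), (2080, 392), (4128, 20),
  (2056, 4480), (2304, 132), (2052, 129), (4097, 2052), (2050, 192), (2176, 4097), (2052, 4113),
  (2048, 81), (192, 4099), (20, 4128), (16, 97), (66, 4105), (4352, 192), (129, 4102),
  (130, 4352), (12, 34), (132, 4416), (264, 129), (128, 264), (4128, 69), (4160, 12), (4097, 14),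
  (3, 44), (4096, 266), (260, 66), (66, 260), (72, 261), (5, 72), (64, 5), (1, 292), (8, 290)]

/-- the example: a cone with apex `10` -/
def K0 : Finset (Finset (Fin 13)) := cx 13 Cm

theorem isCx_K0 : IsCx K0 := isCx_cx (by decide)

theorem Cm_lt : ∀ m ∈ Cm, m < 2 ^ 13 := by decide

theorem Cm_apex : ∀ m ∈ Cm, m.testBit 10 = true := by decide

theorem ball_K0 : IsBall 4 K0 := by
  have h : chainN Cm Cmoves [1318] = true := by decide +kernel
  exact isBall_of_chain (by norm_num) Cm_lt h (by decide +kernel)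

theorem nonEvasive_K0 : NonEvasive K0 := by
  refine nonEvasive_of_cone (10 : Fin 13) _ K0 rfl isCx_K0 ?_
  intro σ hσ
  obtain ⟨m, hm, h⟩ := mem_cx.1 hσ
  refine mem_cx.2 ⟨m, hm, ?_⟩
  intro x hx
  rcases mem_insert.1 hx with rfl | hx
  · rw [mem_decF]; exact Cm_apex m hm
  · exact h hx

/-- the local conditions, on lists -/
def GoodC (s : List ℕ) : Prop :=
  (∀ u ∈ s, ¬ KK u → ∀ c, psi u u c = c) ∧
  (∀ u ∈ s, ¬ KK u → ∀ v ∈ s, ¬ KK v → ∀ w ∈ s, ¬ KK w → ∀ c, psi v w (psi u v c) = psi u w c)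

instance (s : List ℕ) : Decidable (GoodC s) := by unfold GoodC; infer_instance

theorem good_Cm : ∀ m ∈ Cm, GoodC (bitsN 13 m) := by decide +kernel

theorem flat_Cm : ∀ m ∈ [7173, 7201, 7204], ∀ u ∈ bitsN 13 m, ¬ KK u → ∀ v ∈ bitsN 13 m, ¬ KK v →
    psi u v (col 11 u) = col 11 v := by decide +kernel

theorem facet_K0 {F : Finset (Fin 13)} (hF : IsFacet K0 F) : ∃ m ∈ Cm, F = decF 13 m := by
  obtain ⟨m, hm, h⟩ := mem_cx.1 hF.1
  exact ⟨m, hm, (hF.2 _ (mem_cx.2 ⟨m, hm, Subset.refl _⟩) h).symm⟩

theorem mem_bits_of {m : ℕ} {u : Fin 13} (h : u ∈ decF 13 m) : (u : ℕ) ∈ bitsN 13 m :=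
  mem_bitsN.2 ⟨u.2, mem_decF.1 h⟩

theorem TT_eq : TT 13 = {10, 11, 12} := by decide

theorem mem_of_TT {m : ℕ} (h : TT 13 ⊆ decF 13 m) :
    m.testBit 10 = true ∧ m.testBit 11 = true ∧ m.testBit 12 = true := by
  rw [TT_eq] at h
  exact ⟨mem_decF.1 (h (by simp : (10 : Fin 13) ∈ _)), mem_decF.1 (h (by simp : (11 : Fin 13) ∈ _)),
    mem_decF.1 (h (by simp : (12 : Fin 13) ∈ _))⟩

theorem three_Cm : ∀ m ∈ Cm, m.testBit 10 = true → m.testBit 11 = true → m.testBit 12 = true →
    m = 7173 ∨ m = 7201 ∨ m = 7204 := by decide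

theorem twist_K0 : Twist 4 K0 (TT 13) (fun u v => psi (u : ℕ) (v : ℕ))
    (fun u => col 11 (u : ℕ)) := by
  have hk : ∀ {u : Fin 13}, u ∉ TT 13 → ¬ KK (u : ℕ) := fun h h' => h (mem_TT.2 h')
  refine ⟨by decide, ?_, ?_, ?_, ?_⟩
  · intro F hF u hu huT c
    obtain ⟨m, hm, rfl⟩ := facet_K0 hF
    exact (good_Cm m hm).1 u (mem_bits_of hu) (hk huT) c
  · intro F hF u hu v hv w hw huT hvT hwT c
    obtain ⟨m, hm, rfl⟩ := facet_K0 hF
    exact (good_Cm m hm).2 u (mem_bits_of hu) (hk huT) v (mem_bits_of hv) (hk hvT) w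
      (mem_bits_of hw) (hk hwT) c
  · intro F hF hTF u hu v hv huT hvT
    obtain ⟨m, hm, rfl⟩ := facet_K0 hF
    obtain ⟨h1, h2, h3⟩ := mem_of_TT hTF
    have hm' : m ∈ [7173, 7201, 7204] := by
      rcases three_Cm m hm h1 h2 h3 with rfl | rfl | rfl <;> decide
    exact flat_Cm m hm' u (mem_bits_of hu) (hk huT) v (mem_bits_of hv) (hk hvT)
  · have key : ∀ X, IsFacet K0 X → TT 13 ⊆ X →
        X = decF 13 7173 ∨ X = decF 13 7201 ∨ X = decF 13 7204 := by
      intro X hX hTX
      obtain ⟨m, hm, rfl⟩ := facet_K0 hX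
      obtain ⟨h1, h2, h3⟩ := mem_of_TT hTX
      rcases three_Cm m hm h1 h2 h3 with rfl | rfl | rfl
      · exact Or.inl rfl
      · exact Or.inr (Or.inl rfl)
      · exact Or.inr (Or.inr rfl)
    intro X Y Z W hX hY hZ hW tX tY tZ tW
    rcases key X hX tX with h1 | h1 | h1 <;> rcases key Y hY tY with h2 | h2 | h2 <;>
      rcases key Z hZ tZ with h3 | h3 | h3 <;> rcases key W hW tW with h4 | h4 | h4 <;>
      simp [h1, h2, h3, h4]

theorem not_LC : ¬ IsLC 4 K0 := by
  intro h
  obtain ⟨g, hg⟩ := h.section isCx_K0 twist_K0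
  have key : ∀ (m : ℕ) (_ : m ∈ Cm) (u v : ℕ) (hu : u < 13) (hv : v < 13),
      m.testBit u = true → m.testBit v = true → ¬ KK u → ¬ KK v →
      g ⟨v, hv⟩ = psi u v (g ⟨u, hu⟩) := by
    intro m hm u v hu hv h1 h2 h3 h4
    refine hg ⟨u, hu⟩ ⟨v, hv⟩ (fun h => h3 (mem_TT.1 h)) (fun h => h4 (mem_TT.1 h)) ?_
    refine mem_cx.2 ⟨m, hm, ?_⟩
    intro x hx
    rw [mem_insert, mem_singleton] at hx
    rw [mem_decF]
    rcases hx with rfl | rfl <;> assumption
  have h1 := key 1047 (by decide) 0 1 (by omega) (by omega) (by decide) (by decide) (by decide)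
    (by decide)
  have h2 := key 1047 (by decide) 0 2 (by omega) (by omega) (by decide) (by decide) (by decide)
    (by decide)
  have h3 := key 3116 (by decide) 2 5 (by omega) (by omega) (by decide) (by decide) (by decide)
    (by decide)
  have h5 := key 3266 (by decide) 1 7 (by omega) (by omega) (by decide) (by decide) (by decide)
    (by decide)
  have h6 := key 5169 (by decide) 0 5 (by omega) (by omega) (by decide) (by decide) (by decide)
    (by decide)
  have h7 := key 3233 (by decide) 5 7 (by omega) (by omega) (by decide) (by decide) (by decide)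
    (by decide)
  generalize g ⟨0, _⟩ = a0 at *
  generalize g ⟨1, _⟩ = a1 at *
  generalize g ⟨2, _⟩ = a2 at *
  generalize g ⟨5, _⟩ = a5 at *
  generalize g ⟨7, _⟩ = a7 at *
  clear key hg h
  revert a0 a1 a2 a5 a7
  decide

theorem pure_Cm : pureB 13 4 Cm = true := by decide +kernel

theorem two_Cm : twoB 13 4 Cm = true := by decide +kernel

/-- There is a triangulated 4-ball (a pure pseudomanifold, as the definition of local
constructibility demands) that is non-evasive but not locally constructible. -/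
theorem result : ∃ (d n : ℕ) (K : Finset (Finset (Fin n))),
    IsCx K ∧ IsBall d K ∧ (∀ F, IsFacet K F → F.card = d + 1) ∧ AtMostTwo d K ∧
      NonEvasive K ∧ ¬ IsLC d K :=
  ⟨4, 13, K0, isCx_K0, ball_K0, pure_cx pure_Cm, atMostTwo_cx pure_Cm two_Cm, nonEvasive_K0,
    not_LC⟩

end Pool.Agent.Results.MP_9638d9_co.ConeNotLC
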